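import Pool.Agent.H479.W.B
import Pool.Agent.H479.W.Lowp
import Pool.Agent.H479.W.Ca

/-!
# The Alternative Hypothesis for almost all spacings and Montgomery's function on `(1, 2)`

Assume the Riemann hypothesis.  Let `F(α, T)` be Montgomery's function and `d_j` the normalised
spacings of the zeros.  Then `liminf ∫_1^2 (1 - α/2) F(α, T) dα ≥ 1/6`, and the following are
equivalent.

1. (AH for almost all spacings) For every `ε > 0` all but `o(N)` of the spacings `d_1, …, d_N` are
   within `ε` of the set `{1/2, 1, 3/2, …}`.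
2. `limsup ∫_1^2 (1 - α/2) F(α, T) dα ≤ 1/6`.
3. `∫_1^2 (1 - α/2) F(α, T) dα → 1/6`.
4. `limsup ∫_a^b F(α, T) dα ≤ ∫_a^b (2 - α) dα` for all `1 ≤ a < b < 2`.
5. `∫_a^b F(α, T) dα → ∫_a^b (2 - α) dα` for all `1 ≤ a < b < 2`.

So the Alternative Hypothesis fails for a positive upper proportion of the spacings if and only if
`F` exceeds `2 - α` in the mean on `(1, 2)`, and the whole of the hypothesis (for almost all
spacings) is decided by the values of `F` on `(1, 2)`, by an upper bound for one integral.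

Idea of the proof.  The Fejér kernel `2 sinc²(2πx)` vanishes exactly at the nonzero half-integers and
its transform is the tent `max 0 (1 - |α|/2)`.  By Montgomery's theorem on `(-1, 1)`

  `∫_1^2 (1 - α/2) F(α, T) dα - 1/6 = (sum of sinc²(2π(y_n - y_m)) over pairs n ≠ m) + o(1)`

(normalised).  If this tends to `0`, the differences of the normalised zeros concentrate on the
nonzero half-integers, which gives 1, and `F` is periodic in the mean, which gives 5 from
Montgomery's theorem.  Conversely, the hypothesis for almost all spacings gives the pairs with the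
help of the third moment of the number of zeros in short windows (starting library).
-/

open MeasureTheory Filter Topology Complex

namespace Pool.Agent.Results.MP_f0209c_nt.AlmostAllSpacings

/-- the nontrivial zeros of `ζ` with ordinate in `(0, T]` -/
def zeros (T : ℝ) : Set ℂ :=
  {s : ℂ | 0 < s.re ∧ s.re < 1 ∧ 0 < s.im ∧ s.im ≤ T ∧ riemannZeta s = 0}

/-- the multiplicity of `s` as a zero of `ζ` -/
noncomputable def mult (s : ℂ) : ℕ := analyticOrderNatAt riemannZeta s

/-- `(T / 2π) log T` -/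
noncomputable def X (T : ℝ) : ℝ := T / (2 * Real.pi) * Real.log T

/-- Montgomery's function `F(α, T)`:
`((T/2π) log T)⁻¹ ∑_γ ∑_γ' T ^ (iα(γ - γ')) w(γ - γ')`, `w(u) = 4 / (4 + u²)`, the zeros being
counted with multiplicity (a real number, as `γ` and `γ'` can be exchanged) -/
noncomputable def F (α T : ℝ) : ℂ :=
  ((X T : ℝ) : ℂ)⁻¹ *
    ∑ᶠ s ∈ zeros T, ∑ᶠ s' ∈ zeros T, (mult s : ℂ) * (mult s' : ℂ) *
      ((T : ℂ) ^ (I * α * ((s.im - s'.im : ℝ) : ℂ)) * (4 / (4 + ((s.im - s'.im : ℝ) : ℂ) ^ 2)))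

/-- the number of nontrivial zeros of `ζ` with ordinate in `(0, t]`, with multiplicity -/
noncomputable def NZ (t : ℝ) : ℕ :=
  ∑ᶠ s ∈ {s : ℂ | riemannZeta s = 0 ∧ 0 < s.re ∧ s.re < 1 ∧ 0 < s.im ∧ s.im ≤ t}, mult s

/-- for `j ≥ 1`: the `j`-th positive ordinate `γ j` of a nontrivial zero of `ζ`, the ordinates being
listed in nondecreasing order and repeated according to multiplicity -/
noncomputable def γ (j : ℕ) : ℝ := sInf {t : ℝ | j ≤ NZ t}

/-- the normalised spacings `d_j = γ_{j+1} log γ_{j+1} / 2π - γ_j log γ_j / 2π` -/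
noncomputable def d (j : ℕ) : ℝ :=
  (γ (j + 1) * Real.log (γ (j + 1)) - γ j * Real.log (γ j)) / (2 * Real.pi)

/-- the Alternative Hypothesis, as in the problem -/
def AH : Prop :=
  Tendsto (fun j => Metric.infDist (d j) {x : ℝ | ∃ k : ℕ, 1 ≤ k ∧ x = k / 2}) atTop (𝓝 0)

/-- the Alternative Hypothesis for almost all spacings -/
def AlmostAllAH : Prop := ∀ ε : ℝ, 0 < ε → Tendsto (fun N : ℕ =>
  ({j : ℕ | 1 ≤ j ∧ j ≤ N ∧ ∀ k : ℕ, 1 ≤ k → ε ≤ |d j - k / 2|}.ncard : ℝ) / N) atTop (𝓝 0)

/-- the weighted mean of `F` over `(1, 2)` -/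
noncomputable def J (T : ℝ) : ℝ := ∫ α in (1 : ℝ)..2, (1 - α / 2) * (F α T).re

lemma zeros_finite (T : ℝ) : (zeros T).Finite := H370.zeta_zeros_finite T

lemma Zt_eq (T : ℝ) : Pool.Agent.Y744.Zt T = (zeros_finite T).toFinset := rfl

lemma F_re (RH : RiemannHypothesis) {T : ℝ} (hT : 0 < T) (α : ℝ) :
    (F α T).re = H479.P.Fr T α := by
  classical
  have e : F α T = (((X T)⁻¹ : ℝ) : ℂ) * ∑ s ∈ Pool.Agent.Y744.Zt T, ∑ s' ∈ Pool.Agent.Y744.Zt T,
      (((mult s : ℝ) * (mult s' : ℝ) : ℝ) : ℂ) *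
      (((H479.P.wgt (s.im - s'.im) : ℝ) : ℂ) *
        cexp (((α * Real.log T * (s.im - s'.im) : ℝ) : ℂ) * I)) := by
    unfold F
    rw [finsum_mem_eq_finite_toFinset_sum _ (zeros_finite T), ← Zt_eq]
    congr 1
    · push_cast
      rfl
    · apply Finset.sum_congr rfl
      intro s _
      rw [finsum_mem_eq_finite_toFinset_sum _ (zeros_finite T), ← Zt_eq]
      apply Finset.sum_congr rfl
      intro s' _
      have hT0 : (T : ℂ) ≠ 0 := by exact_mod_cast hT.ne'
      rw [Complex.cpow_def_of_ne_zero hT0, ← Complex.ofReal_log hT.le]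
      unfold H479.P.wgt
      push_cast
      rw [show (Real.log T : ℂ) * (I * α * (s.im - s'.im)) =
        α * Real.log T * (s.im - s'.im) * I by ring]
      ring
  rw [e, Complex.re_ofReal_mul]
  unfold H479.P.Fr
  rw [H479.P.Wp_rh_eq RH, div_eq_inv_mul]
  congr 1
  rw [Complex.re_sum]
  apply Finset.sum_congr rfl
  intro s _
  rw [Complex.re_sum]
  apply Finset.sum_congr rfl
  intro s' _
  rw [Complex.re_ofReal_mul, Complex.re_ofReal_mul, Complex.exp_ofReal_mul_I_re,
    mul_comm (H479.P.wgt _)]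
  rfl

lemma int_F (RH : RiemannHypothesis) {T : ℝ} (hT : 0 < T) (a b : ℝ) :
    ∫ α in a..b, (F α T).re = ∫ α in a..b, H479.P.Fr T α := by
  simp_rw [F_re RH hT]

lemma J_eq (RH : RiemannHypothesis) {T : ℝ} (hT : 0 < T) : J T = H479.W.JJ T := by
  unfold J H479.W.JJ
  simp_rw [F_re RH hT]

lemma J_ev (RH : RiemannHypothesis) : J =ᶠ[atTop] H479.W.JJ := by
  filter_upwards [eventually_gt_atTop 0] with T hT using J_eq RH hT

lemma AHd_iff : AlmostAllAH ↔ H479.W.AHd := Iff.rfl

/-- **The Alternative Hypothesis for almost all spacings is equivalent to an upper bound for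
Montgomery's function in the mean on `(1, 2)`.** -/
theorem result (RH : RiemannHypothesis) :
    -- the equivalence
    [AlmostAllAH,
      ∀ ε : ℝ, 0 < ε → ∀ᶠ T in atTop, J T ≤ 1 / 6 + ε,
      Tendsto J atTop (𝓝 (1 / 6)),
      ∀ a b : ℝ, 1 ≤ a → a < b → b < 2 → ∀ ε : ℝ, 0 < ε →
        ∀ᶠ T in atTop, ∫ α in a..b, (F α T).re ≤ (∫ α in a..b, (2 - α)) + ε,
      ∀ a b : ℝ, 1 ≤ a → a < b → b < 2 →
        Tendsto (fun T => ∫ α in a..b, (F α T).re) atTop (𝓝 (∫ α in a..b, (2 - α)))].TFAE ∧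
    -- the lower bound always holds
    (∀ ε : ℝ, 0 < ε → ∀ᶠ T in atTop, 1 / 6 - ε ≤ J T) ∧
    -- the Alternative Hypothesis implies these statements
    (AH → AlmostAllAH) := by
  have hI := H479.W.idn
  have hJ := J_ev RH
  refine ⟨?_, ?_, ?_⟩
  · tfae_have 1 → 3 := by
      intro h
      rw [tendsto_congr' hJ]
      exact H479.W.JJ_of_EE RH hI (H479.W.ae RH H479.W.th3 H479.W.cmb H479.W.lowp H479.W.bad h)
    tfae_have 3 → 1 := by
      intro h
      rw [tendsto_congr' hJ] at h
      exact H479.W.ea RH H479.W.highp (H479.W.EE_of_JJ RH hI h)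
    tfae_have 2 → 3 := by
      intro h
      rw [tendsto_congr' hJ]
      refine H479.W.JJ_of_upper RH hI fun ε hε => ?_
      filter_upwards [h ε hε, hJ] with T h1 h2
      rwa [h2] at h1
    tfae_have 3 → 2 := by
      intro h ε hε
      filter_upwards [(tendsto_order.1 h).2 (1 / 6 + ε) (by linarith)] with T hT
      exact hT.le
    tfae_have 3 → 5 := by
      intro h a b ha hab hb
      rw [tendsto_congr' hJ] at h
      have h1 := H479.W.dw RH H479.W.mon H479.W.per (H479.W.EE_of_JJ RH hI h) h a b ha hab hb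
      refine h1.congr' ?_
      filter_upwards [eventually_gt_atTop 0] with T hT
      exact (int_F RH hT a b).symm
    tfae_have 5 → 4 := by
      intro h a b ha hab hb ε hε
      filter_upwards [(tendsto_order.1 (h a b ha hab hb)).2 ((∫ α in a..b, (2 - α)) + ε)
        (by linarith)] with T hT
      exact hT.le
    tfae_have 4 → 2 := by
      intro h ε hε
      have h1 := H479.W.ca RH (fun a b ha hab hb ε hε => by
        filter_upwards [h a b ha hab hb ε hε, eventually_gt_atTop 0] with T h1 h2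
        rwa [int_F RH h2] at h1) ε hε
      filter_upwards [h1, hJ] with T h2 h3
      rwa [h3]
    tfae_finish
  · intro ε hε
    filter_upwards [H479.W.JJ_lower RH hI hε, hJ] with T h1 h2
    rwa [h2]
  · intro h ε hε
    obtain ⟨j0, hj0⟩ := eventually_atTop.1 ((tendsto_order.1 h).2 ε hε)
    have hb : ∀ N : ℕ, ({j : ℕ | 1 ≤ j ∧ j ≤ N ∧ ∀ k : ℕ, 1 ≤ k → ε ≤ |d j - k / 2|}.ncard : ℝ) ≤
        j0 := by
      intro N
      have h1 : {j : ℕ | 1 ≤ j ∧ j ≤ N ∧ ∀ k : ℕ, 1 ≤ k → ε ≤ |d j - k / 2|} ⊆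
          ↑(Finset.range j0) := by
        rintro j ⟨_, _, h2⟩
        rw [Finset.mem_coe, Finset.mem_range]
        by_contra hc
        push Not at hc
        have h3 := hj0 j hc
        have hne : {x : ℝ | ∃ k : ℕ, 1 ≤ k ∧ x = k / 2}.Nonempty := ⟨(1 : ℕ) / 2, 1, le_rfl, rfl⟩
        obtain ⟨x, ⟨k, hk, rfl⟩, h4⟩ := (Metric.infDist_lt_iff hne).1 h3
        have h5 := h2 k hk
        rw [Real.dist_eq] at h4
        linarith
      have h2 := Set.ncard_le_ncard h1 (Finset.finite_toSet _)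
      rw [Set.ncard_coe_finset, Finset.card_range] at h2
      exact_mod_cast h2
    have h1 : Tendsto (fun N : ℕ => (j0 : ℝ) / N) atTop (𝓝 0) :=
      tendsto_const_div_atTop_nhds_zero_nat _
    refine squeeze_zero (fun N => by positivity) (fun N => ?_) h1
    exact div_le_div_of_nonneg_right (hb N) (Nat.cast_nonneg _)

end Pool.Agent.Results.MP_f0209c_nt.AlmostAllSpacings
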