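import Pool.Agent.H523.AH.Prop
import Pool.Agent.H887.AH.Q1
import Pool.Agent.H971.AH.Q2
import Pool.Agent.H178.AH.F1
import Pool.Agent.H840.AH.Q4
import Pool.Agent.H181.AH.C1
import Pool.Agent.H65.AH.X
import Pool.Agent.H106.AH.N4
import Pool.Agent.H335.AH.P4
import Pool.Agent.H273.AH.M4

set_option autoImplicit false

/-!
# The Alternative Hypothesis fails modulo almost all prime polynomials

The question in the polynomial ring over a finite field with `q` elements (`q` may be fixed): the
zeros of all the Dirichlet `L`-functions modulo a prime polynomial `Q` of degree `d`, `d` large. Each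
of these `L`-functions has `d - 1` or `d - 2` zeros on the critical circle, so that the mean spacing
of their angles is `2π / d` up to a factor `1 + O(1 / d)`.
-/

namespace Pool.Agent.Results.MP_f0209c_nt.HalfIntegersAvoided

open Polynomial
open Pool.Agent.H341R2.Sharp (Mon mem_Mon)
open Pool.Agent.H523.FF (Ir mem_Ir two_le_card)
open Pool.Agent.H523

/-- the `L`-function `L(u, χ)`, `u = q ^ (-s)`, of a character `χ` modulo `Q`: the sum of
`χ f * u ^ deg f` over the monic `f` of degree less than `deg Q` (for `χ` nonprincipal the monic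
polynomials of each larger degree contribute zero) -/
noncomputable def L {F : Type} [Field F] (Q : F[X]) (χ : MulChar (AdjoinRoot Q) ℂ) : ℂ[X] :=
  ∑ k ∈ Finset.range Q.natDegree,
    C (∑ᶠ f ∈ {f : F[X] | f.Monic ∧ f.natDegree = k}, χ (AdjoinRoot.mk Q f)) * X ^ k

open scoped Classical in
/-- the zeros `u` of `L(u, χ)` on the critical circle `|u| = q ^ (-1/2)`, with multiplicities -/
noncomputable def zeros {F : Type} [Field F] [Fintype F] (Q : F[X])
    (χ : MulChar (AdjoinRoot Q) ℂ) : Multiset ℂ :=
  (L Q χ).roots.filter (fun u => ‖u‖ = (√(Fintype.card F : ℝ))⁻¹)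

/-- the normalized spacing of two points: the angle (between `-π` and `π`) from `u` to `v` in units
of `2π / deg Q` -/
noncomputable def spacing {F : Type} [Field F] (Q : F[X]) (u v : ℂ) : ℝ :=
  Q.natDegree * Complex.arg (v / u) / (2 * Real.pi)

/-- `u, v` are consecutive zeros of `L(u, χ)` on the critical circle (equal ones, if the multiplicity
is at least two, or different ones): no zero lies strictly between them on the arc which leads
counterclockwise from `u` to `v` and is at most half of the circle -/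
def Consecutive {F : Type} [Field F] [Fintype F] (Q : F[X]) (χ : MulChar (AdjoinRoot Q) ℂ)
    (u v : ℂ) : Prop :=
  ({u, v} : Multiset ℂ) ≤ zeros Q χ ∧ 0 ≤ Complex.arg (v / u) ∧
    ∀ w ∈ zeros Q χ, ¬(0 < Complex.arg (w / u) ∧ Complex.arg (w / u) < Complex.arg (v / u))

open scoped Classical in
/-- the number of the zeros `u` of `L(u, χ)` on the critical circle, with multiplicities, which are
followed by a zero `v` (`Consecutive`) such that the normalized spacing of `u` and `v` is at
most `2 * 10 ^ 6` and differs by at least `10 ^ (-11)` from each of `1/2, 1, 3/2, 2, ...` -/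
noncomputable def offSpacings {F : Type} [Field F] [Fintype F] (Q : F[X])
    (χ : MulChar (AdjoinRoot Q) ℂ) : ℕ :=
  (zeros Q χ).countP (fun u => ∃ v : ℂ, Consecutive Q χ u v ∧ spacing Q u v ≤ 2 * 10 ^ 6 ∧
    ∀ k : ℕ, 1 ≤ k → 1 / 10 ^ 11 ≤ |spacing Q u v - k / 2|)

open scoped Classical in
/-- the number of the ordered pairs of zeros of `L(u, χ)` on the critical circle, with
multiplicities, whose normalized spacing is at most `R` in absolute value and differs by at
least `c` from every half of an integer (zero included) -/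
noncomputable def offPairs {F : Type} [Field F] [Fintype F] (Q : F[X])
    (χ : MulChar (AdjoinRoot Q) ℂ) (c R : ℝ) : ℕ :=
  ((zeros Q χ).map (fun u => (zeros Q χ).countP (fun v =>
    |spacing Q v u| ≤ R ∧ ∀ k : ℤ, c ≤ |spacing Q v u - k / 2|))).sum

/-- the sum over the nonprincipal characters modulo `Q` -/
noncomputable def total {F : Type} [Field F] (Q : F[X])
    (g : MulChar (AdjoinRoot Q) ℂ → ℕ) : ℝ :=
  ∑ᶠ χ ∈ {χ : MulChar (AdjoinRoot Q) ℂ | χ ≠ 1}, (g χ : ℝ)

lemma L_eq {F : Type} [Field F] [Fintype F] (Q : F[X]) (χ : MulChar (AdjoinRoot Q) ℂ) :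
    L Q χ = CM.Lp Q χ := by
  classical
  unfold L CM.Lp
  refine Finset.sum_congr rfl (fun k _ => ?_)
  congr 2
  have h : {f : F[X] | f.Monic ∧ f.natDegree = k} = ((Mon F k : Finset F[X]) : Set F[X]) := by
    ext f
    rw [Set.mem_ofPred_eq, Finset.mem_coe, mem_Mon]
  rw [h, finsum_mem_coe_finset]

lemma zeros_eq {F : Type} [Field F] [Fintype F] (Q : F[X]) (χ : MulChar (AdjoinRoot Q) ℂ) :
    zeros Q χ = CM.zs χ := by
  unfold zeros CM.zs
  rw [L_eq]

open scoped Classical in
lemma offPairs_eq {F : Type} [Field F] [Fintype F] (Q : F[X]) (χ : MulChar (AdjoinRoot Q) ℂ)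
    (c R : ℝ) : offPairs Q χ c R = AH.offPairs c R Q.natDegree (CM.zs χ) := by
  unfold offPairs AH.offPairs
  rw [zeros_eq]
  congr 1
  refine Multiset.map_congr rfl (fun u _ => ?_)
  exact Multiset.countP_congr rfl (fun v _ => rfl)

open scoped Classical in
lemma total_eq {F : Type} [Field F] [Fintype F] (Q : F[X])
    [Fintype (MulChar (AdjoinRoot Q) ℂ)] (g : MulChar (AdjoinRoot Q) ℂ → ℕ) :
    total Q g = ∑ χ ∈ (Finset.univ : Finset (MulChar (AdjoinRoot Q) ℂ)).erase 1, (g χ : ℝ) := by
  have h : {χ : MulChar (AdjoinRoot Q) ℂ | χ ≠ 1} =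
      (((Finset.univ : Finset (MulChar (AdjoinRoot Q) ℂ)).erase 1 :
        Finset (MulChar (AdjoinRoot Q) ℂ)) : Set (MulChar (AdjoinRoot Q) ℂ)) := by
    ext χ
    simp
  unfold total
  rw [h, finsum_mem_coe_finset]

open scoped Classical in
lemma offSpacings_eq {F : Type} [Field F] [Fintype F] (Q : F[X]) (χ : MulChar (AdjoinRoot Q) ℂ) :
    offSpacings Q χ = (CM.zs χ).countP
      (fun w => AH.Bad (1 / 10 ^ 11) 2000000 Q.natDegree (CM.zs χ) w) := by
  unfold offSpacings
  rw [zeros_eq]
  refine Multiset.countP_congr rfl (fun u _ => ?_)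
  unfold AH.Bad Consecutive spacing
  rw [zeros_eq]
  have e : (2:ℝ) * 10 ^ 6 = 2000000 := by norm_num
  rw [e]
  refine propext (exists_congr (fun v => ?_))
  constructor
  · rintro ⟨⟨h1, h2, h3⟩, h4, h5⟩
    exact ⟨h1, h2, h3, h4, h5⟩
  · rintro ⟨h1, h2, h3, h4, h5⟩
    exact ⟨⟨h1, h2, h3⟩, h4, h5⟩

/-- **The Alternative Hypothesis fails modulo almost all prime polynomials.**

(1), for every monic irreducible `Q` of degree `d ≥ 2` over a finite field with `q` elements: for
every nonprincipal character modulo `Q`, all the zeros of `L(u, χ)` other than `u = 1` lie on the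
critical circle `|u| = q ^ (-1/2)` and there are `d - 1` or `d - 2` of them.

(2) There are `κ > 0`, `δ > 0` and `N` such that for every finite field with `q` elements and
every `d ≥ N`, for all but at most `q ^ (d - δ d)` of the monic irreducible `Q` of degree `d`: in the
sum over all nonprincipal characters modulo `Q`, the number of the zeros which are followed by a
spacing at distance at least `10 ^ (-11)` from each of `1/2, 1, 3/2, 2, ...` (a spacing of at
most `2 * 10 ^ 6`) is at least `κ` times the number of the zeros; and the ordered pairs of zeros of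
one `L`-function whose normalized spacing is at most `2 * 10 ^ 6` in absolute value and differs by at
least `10 ^ (-4)` from every half of an integer (zero included) are, in the sum over all `χ`, at
least `1 / 20` of the number of the zeros. -/
theorem result :
    (∀ (F : Type) [Field F] [Fintype F] (Q : F[X]), Q.Monic → Irreducible Q → 2 ≤ Q.natDegree →
      ∀ χ : MulChar (AdjoinRoot Q) ℂ, χ ≠ 1 →
        (∀ u : ℂ, (L Q χ).IsRoot u → u ≠ 1 → ‖u‖ = (√(Fintype.card F : ℝ))⁻¹) ∧
        ((zeros Q χ).card = Q.natDegree - 1 ∨ (zeros Q χ).card = Q.natDegree - 2)) ∧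
    ∃ κ : ℝ, 0 < κ ∧ ∃ δ : ℝ, 0 < δ ∧ ∃ N : ℕ,
      ∀ (F : Type) [Field F] [Fintype F] (d : ℕ), N ≤ d →
        ({Q : F[X] | Q.Monic ∧ Irreducible Q ∧ Q.natDegree = d ∧
          ¬(κ * total Q (fun χ => (zeros Q χ).card) ≤ total Q (fun χ => offSpacings Q χ) ∧
            (1 / 20) * total Q (fun χ => (zeros Q χ).card) ≤
              total Q (fun χ => offPairs Q χ (1 / 10 ^ 4) (2 * 10 ^ 6)))}.ncard : ℝ) ≤
          (Fintype.card F : ℝ) ^ ((d : ℝ) - δ * d) := by
  classical
  constructor
  · intro F _ _ Q hQ hirr hd χ hχ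
    have hL0 : CM.Lp Q χ ≠ 0 := CM.Lp_ne_zero (by omega) χ
    constructor
    · intro u hu hu1
      have hmem : u ∈ (CM.Lp Q χ).roots := by
        rw [mem_roots hL0, ← L_eq]
        exact hu
      by_cases he : CM.EvenC χ
      · obtain ⟨h1, -⟩ := CM.zs_even hQ hirr hd hχ he
        rw [h1, Multiset.mem_cons] at hmem
        rcases hmem with h | h
        · exact absurd h hu1
        · unfold CM.zs at h
          exact (Multiset.mem_filter.mp h).2
      · obtain ⟨h1, -⟩ := CM.zs_odd hQ hirr hd hχ he
        rw [← h1] at hmem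
        unfold CM.zs at hmem
        exact (Multiset.mem_filter.mp hmem).2
    · rw [zeros_eq]
      by_cases he : CM.EvenC χ
      · exact Or.inr (CM.zs_even hQ hirr hd hχ he).2
      · exact Or.inl (CM.zs_odd hQ hirr hd hχ he).2
  · obtain ⟨κ, hκ, δ, hδ, N, hN⟩ := AH.prop Pool.Agent.H887.AH.main Pool.Agent.H971.AH.main
      Pool.Agent.H178.AH.main Pool.Agent.H840.AH.Q4.main Pool.Agent.H181.AHC1.main Pool.Agent.H65.AH.main
      (Pool.Agent.H273.AH.M4.main Pool.Agent.H106.AHN4.main Pool.Agent.H335.AH.P4.main)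
    refine ⟨κ, hκ, δ, hδ, N, ?_⟩
    intro F _ _ d hd
    obtain ⟨E, hE, hgood⟩ := hN F d hd
    refine le_trans ?_ hE
    rw [← Set.ncard_coe_finset]
    refine Nat.cast_le.mpr (Set.ncard_le_ncard ?_ (Finset.finite_toSet _))
    rintro Q ⟨hQ, hirr, hQd, hbad⟩
    rw [Finset.mem_coe]
    by_contra hQE
    apply hbad
    have hfin : Finite (MulChar (AdjoinRoot Q) ℂ) := by
      have := RH.finite_adjoinRoot hQ
      infer_instance
    have hft : Fintype (MulChar (AdjoinRoot Q) ℂ) := Fintype.ofFinite _
    obtain ⟨h1, h2⟩ := hgood Q hQ hirr hQd hQE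
    have hcR : ∀ χ : MulChar (AdjoinRoot Q) ℂ, offPairs Q χ (1 / 10 ^ 4) (2 * 10 ^ 6) =
        AH.offPairs (1 / 10000) 2000000 d (CM.zs χ) := by
      intro χ
      rw [offPairs_eq, hQd]
      norm_num
    rw [total_eq, total_eq, total_eq]
    simp_rw [zeros_eq, hcR, offSpacings_eq, hQd]
    exact ⟨h1, h2⟩

end Pool.Agent.Results.MP_f0209c_nt.HalfIntegersAvoided
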