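import Pool.Agent.H479.A.Asm
import Pool.Agent.H479.A.Npt

/-!
# The Alternative Hypothesis for almost all spacings and the variance of the primes

Assume the Riemann hypothesis.  Let `ψ` be Chebyshev's function, let `d_j` be the normalised
spacings of the zeros, and put

  `W(T) = (T / log² T) ∫_T^{T²} (1 - log x / (2 log T)) (ψ(x + x/T) - ψ(x) - x/T)² x⁻² dx`,

a weighted mean of the variance of the primes in the intervals `(x, x + x/T]`, `T ≤ x ≤ T²`, and

  `V(T; a, b) = (T / log² T) ∫_{T^a}^{T^b} (ψ(x + x/T) - ψ(x) - x/T)² x⁻² dx`.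

Then `liminf W(T) ≥ 1/6`, and the following are equivalent.

1. (AH for almost all spacings) For every `ε > 0` all but `o(N)` of the spacings `d_1, …, d_N` are
   within `ε` of the set `{1/2, 1, 3/2, …}`.
2. `limsup W(T) ≤ 1/6`.
3. `W(T) → 1/6`.
4. `limsup V(T; a, b) ≤ ∫_a^b (2 - α) dα` for all `1 ≤ a < b < 2`.
5. `V(T; a, b) → ∫_a^b (2 - α) dα` for all `1 ≤ a < b < 2`.

So the Alternative Hypothesis for almost all spacings says exactly that the variance of the primes
in these short intervals is, in the mean, as small as it can be.  (The conjecture of Goldston and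
Montgomery is `V(T; a, b) → b - a`, and gives `W(T) → 1/4`.)  In particular, if `W(T) ≥ 1/6 + c` for
arbitrarily large `T` and some `c > 0`, then the Alternative Hypothesis is false.

The step from the primes to the spacings is quantitative and local in `T`: for all `ε, p > 0` there
is `c > 0` such that `W(T) ≥ 1/6 + c` for every large `T` for which at least `p N(T)` of the spacings
`d_j`, `j ≤ N(T)`, have distance at least `ε` from `{1/2, 1, 3/2, …}`.

Idea of the proof.  By the explicit formula the variance, smoothed over `log x / log T` by a test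
function `w`, is a sum `∑ ŵ((γ - γ') log T / 2π) ph(max(γ, γ') / T)` over the pairs of zeros with
`γ, γ' ≤ T²`, up to `o(1)`.  Take for `w` a smooth positive definite approximation of the tent
`max 0 (1 - |α| / 2)`, whose transform `2 sinc²(2πx)` vanishes exactly at the nonzero half-integers.
The part of `w` in `(-1, 1)` is evaluated by Montgomery's theorem, the diagonal part is `2 + o(1)`;
the other pairs give a nonnegative amount, so `liminf W ≥ 1/6`, and `limsup W ≤ 1/6` forces the
differences of nearby normalised zeros to concentrate on the nonzero half-integers.  Conversely 1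
gives `∫ w F → w(0) + ∫ w(α) min(|α|, 2 - |α|) dα` for the test functions supported in `(-2, 2)`
(the equivalence with `F`, `AlmostAllSpacings`), and the pair sums with the weight `ph` follow.
-/

open MeasureTheory Filter Topology Complex

namespace Pool.Agent.Results.MP_f0209c_nt.MinimalPrimeVariance

/-- the multiplicity of `s` as a zero of `ζ` -/
noncomputable def mult (s : ℂ) : ℕ := analyticOrderNatAt riemannZeta s

/-- the number of nontrivial zeros of `ζ` with ordinate in `(0, t]`, with multiplicity -/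
noncomputable def NZ (t : ℝ) : ℕ :=
  ∑ᶠ s ∈ {s : ℂ | riemannZeta s = 0 ∧ 0 < s.re ∧ s.re < 1 ∧ 0 < s.im ∧ s.im ≤ t}, mult s

/-- for `j ≥ 1`: the `j`-th positive ordinate `γ j` of a nontrivial zero of `ζ`, the ordinates being
listed in nondecreasing order and repeated according to multiplicity -/
noncomputable def γ (j : ℕ) : ℝ := sInf {t : ℝ | j ≤ NZ t}

/-- the normalised spacings `d_j = γ_{j+1} log γ_{j+1} / 2π - γ_j log γ_j / 2π` -/
noncomputable def d (j : ℕ) : ℝ :=
  (γ (j + 1) * Real.log (γ (j + 1)) - γ j * Real.log (γ j)) / (2 * Real.pi)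

/-- the Alternative Hypothesis, as in the problem -/
def AH : Prop :=
  Tendsto (fun j => Metric.infDist (d j) {x : ℝ | ∃ k : ℕ, 1 ≤ k ∧ x = k / 2}) atTop (𝓝 0)

/-- the Alternative Hypothesis for almost all spacings -/
def AlmostAllAH : Prop := ∀ ε : ℝ, 0 < ε → Tendsto (fun N : ℕ =>
  ({j : ℕ | 1 ≤ j ∧ j ≤ N ∧ ∀ k : ℕ, 1 ≤ k → ε ≤ |d j - k / 2|}.ncard : ℝ) / N) atTop (𝓝 0)

/-- the normalised variance of the primes in the intervals `(x, x + x/T]`, `T^a ≤ x ≤ T^b`:
`(T / log² T) ∫_{T^a}^{T^b} (ψ(x + x/T) - ψ(x) - x/T)² x⁻² dx` -/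
noncomputable def V (T a b : ℝ) : ℝ :=
  T / Real.log T ^ 2 * ∫ x in (T ^ a)..(T ^ b),
    (Chebyshev.psi (x + x / T) - Chebyshev.psi x - x / T) ^ 2 / x ^ 2

/-- the weighted mean of the variance over `T ≤ x ≤ T²`:
`(T / log² T) ∫_T^{T²} (1 - log x / (2 log T)) (ψ(x + x/T) - ψ(x) - x/T)² x⁻² dx` -/
noncomputable def W (T : ℝ) : ℝ :=
  T / Real.log T ^ 2 * ∫ x in T..(T ^ 2), (1 - Real.log x / (2 * Real.log T)) *
    ((Chebyshev.psi (x + x / T) - Chebyshev.psi x - x / T) ^ 2 / x ^ 2)

lemma AHd_iff : AlmostAllAH ↔ H479.W.AHd := Iff.rfl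

lemma W_ev : W =ᶠ[atTop] H479.A.RR := by
  filter_upwards [eventually_gt_atTop 1] with T hT using (H479.A.RR_x hT).symm

lemma V_eq {T a b : ℝ} (hT : 1 < T) (ha : 1 ≤ a) (hab : a < b) :
    V T a b = ∫ α in a..b, H479.V.ft T α := H479.V.gvf T a b hT (by linarith) hab.le

lemma AlmostAll_of_AH (h : AH) : AlmostAllAH := by
  intro ε hε
  obtain ⟨j0, hj0⟩ := eventually_atTop.1 ((tendsto_order.1 h).2 ε hε)
  have hb : ∀ N : ℕ, ({j : ℕ | 1 ≤ j ∧ j ≤ N ∧ ∀ k : ℕ, 1 ≤ k → ε ≤ |d j - k / 2|}.ncard : ℝ) ≤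
      j0 := by
    intro N
    have h1 : {j : ℕ | 1 ≤ j ∧ j ≤ N ∧ ∀ k : ℕ, 1 ≤ k → ε ≤ |d j - k / 2|} ⊆
        ↑(Finset.range j0) := by
      rintro j ⟨_, _, h2⟩
      rw [Finset.mem_coe, Finset.mem_range]
      by_contra hc
      push Not at hc
      have h3 := hj0 j hc
      have hne : {x : ℝ | ∃ k : ℕ, 1 ≤ k ∧ x = k / 2}.Nonempty := ⟨(1 : ℕ) / 2, 1, le_rfl, rfl⟩
      obtain ⟨x, ⟨k, hk, rfl⟩, h4⟩ := (Metric.infDist_lt_iff hne).1 h3
      have h5 := h2 k hk
      rw [Real.dist_eq] at h4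
      linarith
    have h2 := Set.ncard_le_ncard h1 (Finset.finite_toSet _)
    rw [Set.ncard_coe_finset, Finset.card_range] at h2
    exact_mod_cast h2
  have h1 : Tendsto (fun N : ℕ => (j0 : ℝ) / N) atTop (𝓝 0) :=
    tendsto_const_div_atTop_nhds_zero_nat _
  refine squeeze_zero (fun N => by positivity) (fun N => ?_) h1
  exact div_le_div_of_nonneg_right (hb N) (Nat.cast_nonneg _)

lemma W_of_all (RH : RiemannHypothesis) (h : AlmostAllAH) : Tendsto W atTop (𝓝 (1 / 6)) := by
  rw [tendsto_congr' W_ev]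
  exact H479.A.gr RH H479.A.ftb' (H479.A.GWin_of_AHd RH (AHd_iff.1 h))

/-- **The Alternative Hypothesis for almost all spacings holds if and only if the variance of the
primes in short intervals is minimal in the mean.** -/
theorem result (RH : RiemannHypothesis) :
    -- the equivalence
    [AlmostAllAH,
      ∀ ε : ℝ, 0 < ε → ∀ᶠ T in atTop, W T ≤ 1 / 6 + ε,
      Tendsto W atTop (𝓝 (1 / 6)),
      ∀ a b : ℝ, 1 ≤ a → a < b → b < 2 → ∀ ε : ℝ, 0 < ε →
        ∀ᶠ T in atTop, V T a b ≤ (∫ α in a..b, (2 - α)) + ε,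
      ∀ a b : ℝ, 1 ≤ a → a < b → b < 2 →
        Tendsto (fun T => V T a b) atTop (𝓝 (∫ α in a..b, (2 - α)))].TFAE ∧
    -- the lower bound always holds
    (∀ ε : ℝ, 0 < ε → ∀ᶠ T in atTop, 1 / 6 - ε ≤ W T) ∧
    -- local form: bad spacings up to the height `T` increase the variance at `T`
    (∀ ε p : ℝ, 0 < ε → 0 < p → ∃ c : ℝ, 0 < c ∧ ∀ᶠ T in atTop,
      p * NZ T ≤ ({j : ℕ | 1 ≤ j ∧ j ≤ NZ T ∧ ∀ k : ℕ, 1 ≤ k → ε ≤ |d j - k / 2|}.ncard : ℝ) →
        1 / 6 + c ≤ W T) ∧
    -- the Alternative Hypothesis implies these statements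
    (AH → Tendsto W atTop (𝓝 (1 / 6))) := by
  refine ⟨?_, ?_, ?_, ?_⟩
  · tfae_have 1 → 5 := by
      intro h a b ha hab hb
      refine (H479.A.GWin_of_AHd RH (AHd_iff.1 h) a b ha hab hb).congr' ?_
      filter_upwards [eventually_gt_atTop 1] with T hT
      exact (V_eq hT ha hab).symm
    tfae_have 5 → 4 := by
      intro h a b ha hab hb ε hε
      filter_upwards [(tendsto_order.1 (h a b ha hab hb)).2 ((∫ α in a..b, (2 - α)) + ε)
        (by linarith)] with T hT
      exact hT.le
    tfae_have 4 → 2 := by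
      intro h ε hε
      have h1 := H479.A.gr1 RH H479.A.ftb' (fun a b ha hab hb ε hε => by
        filter_upwards [h a b ha hab hb ε hε, eventually_gt_atTop 1] with T h1 h2
        rwa [V_eq h2 ha hab] at h1) ε hε
      filter_upwards [h1, W_ev] with T h2 h3
      rwa [h3]
    tfae_have 2 → 1 := by
      intro h
      refine AHd_iff.2 (H479.A.AHd_of_RR RH fun ε hε => ?_)
      filter_upwards [h ε hε, W_ev] with T h1 h2
      rwa [h2] at h1
    tfae_have 1 → 3 := fun h => W_of_all RH h
    tfae_have 3 → 2 := by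
      intro h ε hε
      filter_upwards [(tendsto_order.1 h).2 (1 / 6 + ε) (by linarith)] with T hT
      exact hT.le
    tfae_finish
  · intro ε hε
    filter_upwards [H479.A.RR_lower RH hε, W_ev] with T h1 h2
    rwa [h2]
  · intro ε p hε hp
    obtain ⟨c, hc, h⟩ := H479.A.RR_of_bad RH hε hp
    refine ⟨c, hc, ?_⟩
    filter_upwards [h, W_ev] with T h1 h2 h3
    rw [h2]
    exact h1 h3
  · exact fun h => W_of_all RH (AlmostAll_of_AH h)

end Pool.Agent.Results.MP_f0209c_nt.MinimalPrimeVariance
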