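import Pool.Agent.H493.WB.Uni

/-!
# Simple zeros of zeta in windows at all distances, relative to Besicovitch almost periodic data

No hypothesis is made on the zeros of zeta. Let `c = 1/2 + cot(1/√2)/√2 ≤ 1.3275` be the
Montgomery-Taylor constant; the simple zeros are the `1/2 + iγ` with `ζ(1/2 + iγ) = 0` and
`ζ'(1/2 + iγ) ≠ 0`, and `2π / log T` is the mean distance of the zeros near the height `T`.

1. For any weights `φ_i` with values in `[0, 1]` which are almost periodic in the sense of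
   Besicovitch, any shifts `a_i, b_j ∈ [0, CT]`, and any length `ℓ₀ ≤ ℓ ≤ c₀ log T`, where `ℓ₀` does
   not depend on the weights: relative to the weight `∏ φ_i(t + a_i)`, and up to `ε`, a proportion at
   least `(m (2 - c - θ)/(1 - θ) - k)/(m - k)` of all heights `t` has the property that more than `k` of
   the `m` windows `(t + b_j, t + b_j + 2πℓ/log T]` contain more than `θℓ` simple zeros `γ`.
2. Pairs of simple zeros at all distances `h ∈ [0, CT]`, with almost periodic weights at both zeros.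
3. The same as 1. for the heights `t` such that `ζ` is near prescribed classes of functions on compact
   sets to the right of the critical line, at all the points `t + a_i`.
4. In particular universality holds at a positive proportion of the heights with many windows full
   of simple zeros.
-/

set_option autoImplicit false

open Filter Topology Complex MeasureTheory
open scoped BigOperators

namespace Pool.Agent.Results.MP_f0209c_nt.PairsAtAllDistances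

/-- `1/2 + iγ` is a simple zero of zeta -/
def IsSimple (γ : ℝ) : Prop := riemannZeta (1 / 2 + γ * I) = 0 ∧ deriv riemannZeta (1 / 2 + γ * I) ≠ 0

/-- the `γ` in `(a, b]` for which `1/2 + iγ` is a simple zero of zeta -/
def Simple (a b : ℝ) : Set ℝ := {γ : ℝ | a < γ ∧ γ ≤ b ∧ IsSimple γ}

/-- the constant `c = 1/2 + cot(1/√2)/√2`, the inverse of the Montgomery-Taylor constant -/
noncomputable def c : ℝ := 1 / 2 + Real.cot (1 / Real.sqrt 2) / Real.sqrt 2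

/-- `(m (2 - c - θ)/(1 - θ) - k)/(m - k)` -/
noncomputable def share (m k : ℕ) (θ : ℝ) : ℝ := (m * ((2 - c - θ) / (1 - θ)) - k) / (m - k)

open Classical in
/-- the number of the `j` for which the window `(t + b_j, t + b_j + 2πℓ/log T]` contains more than
`θ ℓ` of the `γ` -/
noncomputable def full {m : ℕ} (b : Fin m → ℝ) (θ ℓ T t : ℝ) : ℕ :=
  (Finset.univ.filter fun j => θ * ℓ <
    (Simple (t + b j) (t + b j + 2 * Real.pi * ℓ / Real.log T)).ncard).card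

/-- the trigonometric polynomial `Re ∑ c_τ exp (i τ t)`, `τ` in the finite set `S` -/
noncomputable def trig (S : Finset ℝ) (c : ℝ → ℂ) (t : ℝ) : ℝ := (∑ τ ∈ S, c τ * cexp (I * τ * t)).re

/-- almost periodic in the sense of Bohr: uniform limits of trigonometric polynomials -/
def AlmostPeriodic (φ : ℝ → ℝ) : Prop := ∀ ε : ℝ, 0 < ε → ∃ (S : Finset ℝ) (c : ℝ → ℂ),
  ∀ t : ℝ, |φ t - trig S c t| ≤ ε

/-- almost periodic in the sense of Besicovitch: limits of trigonometric polynomials in the mean -/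
def Besicovitch (φ : ℝ → ℝ) : Prop := Measurable φ ∧ ∀ ε : ℝ, 0 < ε →
  ∃ (S : Finset ℝ) (c : ℝ → ℂ), ∀ᶠ X : ℝ in atTop, ∫ t in (0 : ℝ)..X, |φ t - trig S c t| ≤ ε * X

/-- the function `z ↦ ζ(z + it)` is, uniformly on `K`, at distance less than `η` from a member of
the class `A` -/
def Near (K : Set ℂ) (A : Set (ℂ → ℂ)) (η t : ℝ) : Prop :=
  ∃ f ∈ A, ∃ r < η, ∀ z ∈ K, ‖riemannZeta (z + t * I) - f z‖ ≤ r

/-- the (Lebesgue) measure of the heights `t` in `(a, b]` with the property `P` -/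
noncomputable def Heights (a b : ℝ) (P : ℝ → Prop) : ℝ :=
  (volume {t : ℝ | t ∈ Set.Ioc a b ∧ P t}).toReal

lemma zeta_analytic {s : ℂ} (hs : s ≠ 1) : AnalyticAt ℂ riemannZeta s := by
  have : DifferentiableOn ℂ riemannZeta ({1}ᶜ : Set ℂ) := fun z hz =>
    (differentiableAt_riemannZeta hz).differentiableWithinAt
  exact this.analyticAt (isOpen_compl_singleton.mem_nhds hs)

lemma half_ne (t : ℝ) : (1 / 2 + t * I : ℂ) ≠ 1 := by
  intro h
  have := congrArg Complex.re h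
  norm_num at this

lemma simple_iff {t : ℝ} (h : riemannZeta (1 / 2 + t * I) = 0) :
    deriv riemannZeta (1 / 2 + t * I) ≠ 0 ↔ analyticOrderNatAt riemannZeta (1 / 2 + t * I) = 1 := by
  have ha := zeta_analytic (half_ne t)
  have h3 := ha.analyticOrderAt_deriv_add_one
  simp only [h, sub_zero] at h3
  have h4 : deriv riemannZeta (1 / 2 + t * I) ≠ 0 ↔
      analyticOrderAt (deriv riemannZeta) (1 / 2 + t * I) = 0 :=
    ha.deriv.analyticOrderAt_eq_zero.symm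
  rw [h4]
  unfold analyticOrderNatAt
  rw [← h3]
  generalize analyticOrderAt (deriv riemannZeta) (1 / 2 + t * I) = x
  cases x with
  | top => simp
  | coe n =>
    have e : ((n : ℕ∞) + 1).toNat = n + 1 := by
      rw [show ((n : ℕ∞) + 1) = ((n + 1 : ℕ) : ℕ∞) by push_cast; rfl, ENat.toNat_natCast]
    rw [e]
    constructor
    · intro h
      have : n = 0 := by exact_mod_cast h
      omega
    · intro h
      have : n = 0 := by omega
      rw [this]; rfl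

lemma line_inj : Function.Injective fun t : ℝ => (1 / 2 + t * I : ℂ) := by
  intro a b hab
  have := congrArg Complex.im hab
  simpa using this

/-- the sets of simple zeros that are counted are finite -/
theorem simple_finite (a b : ℝ) (h : 0 < a) : (Simple a b).Finite := by
  refine Set.Finite.of_finite_image ((H370.zset_finite' H370.good_zeta a b h).subset ?_)
    line_inj.injOn
  rintro s ⟨t, ⟨h1, h2, h3, h4⟩, rfl⟩
  refine ⟨?_, ?_, ?_, ?_, h3⟩ <;> simp <;> first | assumption | norm_num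

open Classical in
lemma simple_image {A B : ℝ} (h : 1 ≤ A) :
    Simple A B = (fun s : ℂ => s.im) '' (Pool.Agent.H493.WB.SZ A B : Set ℂ) := by
  ext t
  unfold Pool.Agent.H493.WB.SZ
  constructor
  · rintro ⟨h1, h2, h3, h4⟩
    refine ⟨1 / 2 + t * I, ?_, by simp⟩
    rw [Finset.mem_coe, Finset.mem_filter, H370.mem_Zf H370.good_zeta h]
    refine ⟨⟨?_, ?_, ?_, ?_, h3⟩, by simp, (simple_iff h3).1 h4⟩ <;> simp <;>
      first | assumption | norm_num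
  · rintro ⟨s, hs, rfl⟩
    rw [Finset.mem_coe, Finset.mem_filter, H370.mem_Zf H370.good_zeta h] at hs
    have e : (1 / 2 + s.im * I : ℂ) = s := by
      apply Complex.ext
      · simp [hs.2.1]
      · simp
    refine ⟨hs.1.2.2.1, hs.1.2.2.2.1, ?_, ?_⟩
    · rw [e]; exact hs.1.2.2.2.2
    · rw [simple_iff (by rw [e]; exact hs.1.2.2.2.2), e]; exact hs.2.2

open Classical in
lemma SZ_inj (A B : ℝ) : Set.InjOn (fun s : ℂ => s.im) (Pool.Agent.H493.WB.SZ A B : Set ℂ) := by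
  intro s hs s' hs' h6
  unfold Pool.Agent.H493.WB.SZ at hs hs'
  rw [Finset.mem_coe, Finset.mem_filter] at hs hs'
  exact Complex.ext (hs.2.1.trans hs'.2.1.symm) h6

lemma ns_eq {t s : ℝ} (h : 1 ≤ t) : ((Simple t (t + s)).ncard : ℝ) = Pool.Agent.H493.WB.ns t s := by
  rw [simple_image h, Set.ncard_image_of_injOn (SZ_inj _ _), Set.ncard_coe_finset]
  rfl

lemma full_eq {m : ℕ} (b : Fin m → ℝ) (θ ℓ T t : ℝ) (h : ∀ j, 1 ≤ t + b j) :
    full b θ ℓ T t = Pool.Agent.H493.WB.nw b (θ * ℓ) (2 * Real.pi * ℓ / Real.log T) t := by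
  classical
  unfold full Pool.Agent.H493.WB.nw
  congr 1
  refine Finset.filter_congr fun j _ => ?_
  rw [ns_eq (h j)]

open Classical in
/-- sums over zeros and sums over ordinates -/
lemma sum_le {F : Finset ℂ} (hF : Set.InjOn (fun s : ℂ => s.im) (F : Set ℂ)) {A : Set ℝ}
    (hA : A.Finite) (hFA : ∀ s ∈ F, s.im ∈ A) {g : ℝ → ℝ} (hg : ∀ t, 0 ≤ g t) :
    ∑ s ∈ F, g s.im ≤ ∑ᶠ γ ∈ A, g γ := by
  rw [finsum_mem_eq_finite_toFinset_sum _ hA, ← Finset.sum_image (f := g) hF]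
  refine Finset.sum_le_sum_of_subset_of_nonneg (fun t ht => ?_) fun t _ _ => hg t
  rw [Finset.mem_image] at ht
  obtain ⟨s, hs, rfl⟩ := ht
  rw [Set.Finite.mem_toFinset]
  exact hFA s hs

lemma bes {φ : ℝ → ℝ} (h : Besicovitch φ) (h0 : ∀ t, 0 ≤ φ t ∧ φ t ≤ 1) :
    Measurable φ ∧ Pool.Agent.H493.WB.BAP φ :=
  ⟨h.1, Pool.Agent.H493.WB.BAP_of_std
    (fun a b => Pool.Agent.H493.WB.ii_of h.1 (fun t => (h0 t).1) (fun t => (h0 t).2) a b) h.2⟩

lemma c_le : c ≤ 1.3275 := by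
  have h := Pool.Agent.H493.BS.cc_one_le
  exact h

lemma one_le_c : 1 ≤ c := by
  have h2 : 0 < Real.sqrt 2 := Real.sqrt_pos.2 (by norm_num)
  have hsq : Real.sqrt 2 ^ 2 = 2 := Real.sq_sqrt (by norm_num)
  have h3 : Real.sqrt 2 ≤ 3 / 2 := by nlinarith
  have h4 : 7 / 5 ≤ Real.sqrt 2 := by
    rw [show (7 / 5 : ℝ) = Real.sqrt ((7 / 5) ^ 2) by rw [Real.sqrt_sq (by norm_num)]]
    exact Real.sqrt_le_sqrt (by norm_num)
  set x : ℝ := 1 / Real.sqrt 2 with hx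
  have hx0 : 0 < x := by positivity
  have hx1 : x ≤ Real.pi / 4 := by
    have h5 : x ≤ 5 / 7 := by
      rw [hx, div_le_iff₀ h2]
      linarith
    linarith [Real.pi_gt_three]
  have hs : Real.sin x ≤ Real.cos x := by
    have a1 : Real.sin x ≤ Real.sin (Real.pi / 4) :=
      Real.sin_le_sin_of_le_of_le_pi_div_two (by linarith) (by linarith) hx1
    have a2 : Real.cos (Real.pi / 4) ≤ Real.cos x :=
      Real.cos_le_cos_of_nonneg_of_le_pi hx0.le (by linarith [Real.pi_pos]) hx1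
    rw [Real.sin_pi_div_four] at a1
    rw [Real.cos_pi_div_four] at a2
    linarith
  have hs0 : 0 < Real.sin x := Real.sin_pos_of_pos_of_lt_pi hx0 (by linarith [Real.pi_pos])
  have hcot : 1 ≤ Real.cot x := by
    rw [Real.cot_eq_cos_div_sin, le_div_iff₀ hs0, one_mul]
    exact hs
  have h6 : 1 / 2 ≤ Real.cot x / Real.sqrt 2 := by
    rw [le_div_iff₀ h2]
    linarith
  unfold c
  linarith

/-- **windows relative to Besicovitch almost periodic weights** -/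
theorem windows {κ C ε θ : ℝ} (hκ : 0 < κ) (hC : 0 ≤ C) (hε : 0 < ε) (hθ0 : 0 ≤ θ) (hθ1 : θ < 1)
    {m k : ℕ} (hkm : k < m) :
    ∃ ℓ₀ : ℝ, ∀ (n : ℕ) (φ : Fin n → ℝ → ℝ), (∀ i, Besicovitch (φ i)) →
      (∀ i t, 0 ≤ φ i t ∧ φ i t ≤ 1) →
      ∃ c₀ T₀ : ℝ, 0 < c₀ ∧ ∀ T : ℝ, T₀ ≤ T → ∀ H : ℝ, κ * T ≤ H → H ≤ T →
        ∀ (a : Fin n → ℝ) (b : Fin m → ℝ) (ℓ : ℝ), (∀ i, 0 ≤ a i ∧ a i ≤ C * T) →
          (∀ j, 0 ≤ b j ∧ b j ≤ C * T) → ℓ₀ ≤ ℓ → ℓ ≤ c₀ * Real.log T →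
          share m k θ * (∫ t in T..(T + H), ∏ i, φ i (t + a i)) - ε * H ≤
            ∫ t in {t : ℝ | t ∈ Set.Ioc T (T + H) ∧ k < full b θ ℓ T t}, ∏ i, φ i (t + a i) := by
  obtain ⟨ℓ₀, hℓ₀, h⟩ := Pool.Agent.H493.WB.many_windows hκ hC hε hθ0 hθ1 hkm
  refine ⟨ℓ₀, fun n φ hB h01 => ?_⟩
  have hb := fun i => bes (hB i) (h01 i)
  obtain ⟨c₀, T₀, hc₀, hT₀, h⟩ := h n φ (fun i => (hb i).1) (fun i t => (h01 i t).1)
    (fun i t => (h01 i t).2) (fun i => (hb i).2)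
  refine ⟨c₀, T₀, hc₀, fun T hT H hH1 hH2 a b ℓ ha hbb hℓ1 hℓ2 => ?_⟩
  have key := h T hT H hH1 hH2 a b ℓ ha hbb hℓ1 hℓ2
  have e1 : {t : ℝ | t ∈ Set.Ioc T (T + H) ∧ k < full b θ ℓ T t} =
      {t : ℝ | t ∈ Set.Ioc T (T + H) ∧
        k < Pool.Agent.H493.WB.nw b (θ * ℓ) (2 * Real.pi * ℓ / Real.log T) t} := by
    ext t
    simp only [Set.mem_ofPred_eq]
    refine and_congr_right fun ht => ?_
    rw [full_eq b θ ℓ T t fun j => by linarith [(hbb j).1, ht.1]]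
  rw [e1]
  exact key

/-- **pairs of simple zeros at all distances** -/
theorem pairs {κ C ε : ℝ} (hκ : 0 < κ) (hC : 0 ≤ C) (hε : 0 < ε) :
    ∃ a₀ : ℝ, ∀ f g : ℝ → ℝ, AlmostPeriodic f → AlmostPeriodic g →
      (∀ t, 0 ≤ f t ∧ f t ≤ 1) → (∀ t, 0 ≤ g t ∧ g t ≤ 1) →
      ∃ c₀ T₀ : ℝ, 0 < c₀ ∧ ∀ T : ℝ, T₀ ≤ T → ∀ H : ℝ, κ * T ≤ H → H ≤ T →
        ∀ h a : ℝ, 0 ≤ h → h ≤ C * T → a₀ ≤ a → a ≤ c₀ * Real.log T →
          2 * a * (Real.log T / (2 * Real.pi)) *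
              ((3 - 2 * c) * (∫ t in T..(T + H), f t * g (t + h)) - ε * H) ≤
            ∑ᶠ γ ∈ Simple T (T + H), f γ *
              ∑ᶠ γ' ∈ {γ' : ℝ | IsSimple γ' ∧ |γ' - γ - h| ≤ 2 * Real.pi * a / Real.log T}, g γ' := by
  classical
  obtain ⟨a₀, ha₀, hp⟩ := Pool.Agent.H493.WB.pairs hκ hC hε
  refine ⟨a₀, fun f g hf hg hf1 hg1 => ?_⟩
  obtain ⟨c₀, T₀, hc₀, hT₀, h1⟩ := hp f g hf hg (fun t => (hf1 t).1) (fun t => (hf1 t).2)
    (fun t => (hg1 t).1) (fun t => (hg1 t).2)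
  have hpi := Real.pi_pos
  refine ⟨min c₀ (1 / (2 * Real.pi)), T₀, by positivity, fun T hT H hH1 hH2 h a hh0 hh1 ha1 ha2 => ?_⟩
  have hT10 : 10 ≤ T := hT₀.trans hT
  have hL : 0 < Real.log T := Real.log_pos (by linarith)
  have ha2' : a ≤ c₀ * Real.log T := ha2.trans (by gcongr; exact min_le_left _ _)
  have ha3 : a ≤ 1 / (2 * Real.pi) * Real.log T := ha2.trans (by gcongr; exact min_le_right _ _)
  have key := h1 T hT H hH1 hH2 h a hh0 hh1 ha1 ha2'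
  refine key.trans ?_
  set δ : ℝ := 2 * Real.pi * a / Real.log T with hδ
  have hδ1 : δ ≤ 1 := by
    rw [hδ, div_le_one hL]
    calc 2 * Real.pi * a ≤ 2 * Real.pi * (1 / (2 * Real.pi) * Real.log T) := by gcongr
      _ = Real.log T := by field_simp
  unfold Pool.Agent.H493.WB.PS
  have hfin : ∀ γ : ℝ, T < γ → {γ' : ℝ | IsSimple γ' ∧ |γ' - γ - h| ≤ δ}.Finite := by
    intro γ hγ
    refine (simple_finite (γ + h - δ - 1) (γ + h + δ) (by linarith)).subset ?_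
    rintro γ' ⟨h2, h3⟩
    rw [abs_le] at h3
    exact ⟨by linarith [h3.1], by linarith [h3.2], h2⟩
  have hnn : ∀ γ : ℝ, 0 ≤ ∑ᶠ γ' ∈ {γ' : ℝ | IsSimple γ' ∧ |γ' - γ - h| ≤ δ}, g γ' := fun γ =>
    finsum_nonneg fun _ => finsum_nonneg fun _ => (hg1 _).1
  have e1 : ∀ z ∈ Pool.Agent.H493.WB.SZ T (T + H),
      ∑ z' ∈ (Pool.Agent.H493.WB.SZ T ((C + 3) * T)).filter (fun z' => |z'.im - z.im - h| ≤ δ),
        f z.im * g z'.im ≤
      f z.im * ∑ᶠ γ' ∈ {γ' : ℝ | IsSimple γ' ∧ |γ' - z.im - h| ≤ δ}, g γ' := by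
    intro z hz
    have hz1 : z.im ∈ Simple T (T + H) := by
      rw [simple_image (by linarith)]
      exact ⟨z, hz, rfl⟩
    rw [← Finset.mul_sum]
    refine mul_le_mul_of_nonneg_left ?_ (hf1 _).1
    refine sum_le ?_ (hfin _ hz1.1) (fun s hs => ?_) (fun t => (hg1 t).1)
    · refine (SZ_inj T ((C + 3) * T)).mono ?_
      intro s hs
      exact (Finset.mem_filter.1 hs).1
    · rw [Finset.mem_filter] at hs
      have : s.im ∈ Simple T ((C + 3) * T) := by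
        rw [simple_image (by linarith)]
        exact ⟨s, hs.1, rfl⟩
      exact ⟨this.2.2, hs.2⟩
  refine (Finset.sum_le_sum e1).trans ?_
  exact sum_le (g := fun γ => f γ *
      ∑ᶠ γ' ∈ {γ' : ℝ | IsSimple γ' ∧ |γ' - γ - h| ≤ δ}, g γ') (SZ_inj T (T + H))
    (simple_finite _ _ (by linarith)) (fun s hs => by
      rw [simple_image (by linarith)]
      exact ⟨s, hs, rfl⟩) (fun t => mul_nonneg (hf1 t).1 (hnn t))

/-- **windows relative to universality classes** -/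
theorem classes {κ C ε θ : ℝ} (hκ : 0 < κ) (hC : 0 ≤ C) (hε : 0 < ε) (hθ0 : 0 ≤ θ) (hθ1 : θ < 1)
    {m k : ℕ} (hkm : k < m) :
    ∃ ℓ₀ : ℝ, ∀ K : Set ℂ, IsCompact K → (∀ z ∈ K, 1 / 2 < z.re ∧ z.re < 1) →
      ∀ (n : ℕ) (A : Fin n → Set (ℂ → ℂ)) (η η' : ℝ), η < η' →
      ∃ c₀ T₀ : ℝ, 0 < c₀ ∧ ∀ T : ℝ, T₀ ≤ T → ∀ H : ℝ, κ * T ≤ H → H ≤ T →
        ∀ (a : Fin n → ℝ) (b : Fin m → ℝ) (ℓ : ℝ), (∀ i, 0 ≤ a i ∧ a i ≤ C * T) →
          (∀ j, 0 ≤ b j ∧ b j ≤ C * T) → ℓ₀ ≤ ℓ → ℓ ≤ c₀ * Real.log T →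
          share m k θ * Heights T (T + H) (fun t => ∀ i, Near K (A i) η (t + a i)) - ε * H ≤
            Heights T (T + H) (fun t => (∀ i, Near K (A i) η' (t + a i)) ∧ k < full b θ ℓ T t) := by
  obtain ⟨ℓ₀, hℓ₀, h⟩ := Pool.Agent.H493.WB.near_windows hκ hC hε hθ0 hθ1 hkm
  refine ⟨ℓ₀, fun K hK hKs n A η η' hη => ?_⟩
  obtain ⟨c₀, T₀, hc₀, hT₀, h⟩ := h K hK hKs n A η η' hη
  refine ⟨c₀, T₀, hc₀, fun T hT H hH1 hH2 a b ℓ ha hbb hℓ1 hℓ2 => ?_⟩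
  have key := h T hT H hH1 hH2 a b ℓ ha hbb hℓ1 hℓ2
  refine key.trans (le_of_eq ?_)
  unfold Heights Pool.Agent.H510.UZ.Ms
  congr 2
  ext t
  simp only [Set.mem_ofPred_eq]
  refine and_congr_right fun ht => and_congr_right fun _ => ?_
  rw [full_eq b θ ℓ T t fun j => by linarith [(hbb j).1, ht.1]]

/-- **universality at heights with many full windows** -/
theorem voronin {κ C θ : ℝ} (hκ : 0 < κ) (hC : 0 ≤ C) (hθ0 : 0 ≤ θ) (hθ1 : θ < 1)
    {m k : ℕ} (hkm : (k : ℝ) < m * ((2 - c - θ) / (1 - θ))) {K : Set ℂ} (hK : IsCompact K)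
    (hKs : ∀ z ∈ K, 1 / 2 < z.re ∧ z.re < 1) (hKc : IsConnected Kᶜ) {f : ℂ → ℂ}
    (hf : ContinuousOn f K) (hd : DifferentiableOn ℂ f (interior K))
    (h0 : ∀ z ∈ interior K, f z ≠ 0) {η : ℝ} (hη : 0 < η) :
    ∃ p ℓ₀ c₀ T₀ : ℝ, 0 < p ∧ 0 < c₀ ∧ ∀ T : ℝ, T₀ ≤ T → ∀ H : ℝ, κ * T ≤ H → H ≤ T →
        ∀ (b : Fin m → ℝ) (ℓ : ℝ), (∀ j, 0 ≤ b j ∧ b j ≤ C * T) → ℓ₀ ≤ ℓ → ℓ ≤ c₀ * Real.log T →
          p * H ≤ Heights T (T + H) (fun t => (∀ z ∈ K, ‖riemannZeta (z + t * I) - f z‖ < η) ∧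
            k < full b θ ℓ T t) := by
  obtain ⟨q, hq, hv⟩ := Pool.Agent.H493.WB.voronin_long hK hKs hKc hf hd h0 (η := η / 2)
    (by positivity)
  have hc1 := one_le_c
  have hkm' : k < m := by
    have h1 : (2 - c - θ) / (1 - θ) ≤ 1 := by
      rw [div_le_one (by linarith)]
      linarith
    have h2 : (m : ℝ) * ((2 - c - θ) / (1 - θ)) ≤ m * 1 := by gcongr
    have h3 : (k : ℝ) < m := by linarith
    exact_mod_cast h3
  have hmk : (0 : ℝ) < m - k := by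
    have : (k : ℝ) < m := by exact_mod_cast hkm'
    linarith
  have hs : 0 < share m k θ := div_pos (by linarith) hmk
  obtain ⟨T₁, hT₁⟩ := hv κ hκ
  obtain ⟨ℓ₀, h⟩ := classes hκ hC (ε := share m k θ * q / 2) (by positivity) hθ0 hθ1 hkm'
  obtain ⟨c₀, T₀, hc₀, h⟩ := h K hK hKs 1 (fun _ => {f}) (η / 2) η (by linarith)
  refine ⟨share m k θ * q / 2, ℓ₀, c₀, max (max T₀ T₁) 1, by positivity, hc₀,
    fun T hT H hH1 hH2 b ℓ hb hℓ1 hℓ2 => ?_⟩
  have hTT0 : T₀ ≤ T := ((le_max_left _ _).trans (le_max_left _ _)).trans hT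
  have hTT1 : T₁ ≤ T := ((le_max_right _ _).trans (le_max_left _ _)).trans hT
  have hT1 : 1 ≤ T := (le_max_right _ _).trans hT
  have a1 := hT₁ T hTT1 H hH1 hH2
  have a2 := h T hTT0 H hH1 hH2 (fun _ => 0) b ℓ (fun _ => ⟨le_rfl, by positivity⟩) hb hℓ1 hℓ2
  have a3 : Heights T (T + H) (fun t => ∀ i : Fin 1, Near K {f} (η / 2) (t + (fun _ => 0 : Fin 1 → ℝ) i)) =
      Pool.Agent.H510.UZ.Ms T (T + H) (Pool.Agent.H510.UZ.Near K {f} (η / 2)) := by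
    unfold Heights Pool.Agent.H510.UZ.Ms
    congr 2
    ext t
    simp only [Set.mem_ofPred_eq, add_zero, forall_const]
    rfl
  rw [a3] at a2
  have a4 : share m k θ * (q * H) ≤ share m k θ *
      Pool.Agent.H510.UZ.Ms T (T + H) (Pool.Agent.H510.UZ.Near K {f} (η / 2)) := by gcongr
  have a5 : Heights T (T + H) (fun t => (∀ i : Fin 1, Near K {f} η (t + (fun _ => 0 : Fin 1 → ℝ) i)) ∧
      k < full b θ ℓ T t) ≤
      Heights T (T + H) (fun t => (∀ z ∈ K, ‖riemannZeta (z + t * I) - f z‖ < η) ∧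
        k < full b θ ℓ T t) := by
    unfold Heights
    refine ENNReal.toReal_mono ?_ (measure_mono ?_)
    · refine ne_top_of_le_ne_top ?_ (measure_mono (t := Set.Ioc T (T + H)) fun t ht => ht.1)
      exact measure_Ioc_lt_top.ne
    · rintro t ⟨h1, h2, h3⟩
      obtain ⟨g, hg, r, hr, h4⟩ := h2 0
      rw [Set.mem_singleton_iff] at hg
      subst hg
      refine ⟨h1, fun z hz => ?_, h3⟩
      have h5 := h4 z hz
      simp only [add_zero] at h5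
      exact lt_of_le_of_lt h5 hr
  linarith

/-- **simple zeros in windows and in pairs at all distances** -/
theorem result :
    -- windows relative to Besicovitch almost periodic weights
    (∀ κ C ε θ : ℝ, 0 < κ → 0 ≤ C → 0 < ε → 0 ≤ θ → θ < 1 → ∀ m k : ℕ, k < m →
      ∃ ℓ₀ : ℝ, ∀ (n : ℕ) (φ : Fin n → ℝ → ℝ), (∀ i, Besicovitch (φ i)) →
      (∀ i t, 0 ≤ φ i t ∧ φ i t ≤ 1) →
      ∃ c₀ T₀ : ℝ, 0 < c₀ ∧ ∀ T : ℝ, T₀ ≤ T → ∀ H : ℝ, κ * T ≤ H → H ≤ T →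
        ∀ (a : Fin n → ℝ) (b : Fin m → ℝ) (ℓ : ℝ), (∀ i, 0 ≤ a i ∧ a i ≤ C * T) →
          (∀ j, 0 ≤ b j ∧ b j ≤ C * T) → ℓ₀ ≤ ℓ → ℓ ≤ c₀ * Real.log T →
          share m k θ * (∫ t in T..(T + H), ∏ i, φ i (t + a i)) - ε * H ≤
            ∫ t in {t : ℝ | t ∈ Set.Ioc T (T + H) ∧ k < full b θ ℓ T t}, ∏ i, φ i (t + a i)) ∧
    -- pairs of simple zeros at all distances
    (∀ κ C ε : ℝ, 0 < κ → 0 ≤ C → 0 < ε →
      ∃ a₀ : ℝ, ∀ f g : ℝ → ℝ, AlmostPeriodic f → AlmostPeriodic g →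
      (∀ t, 0 ≤ f t ∧ f t ≤ 1) → (∀ t, 0 ≤ g t ∧ g t ≤ 1) →
      ∃ c₀ T₀ : ℝ, 0 < c₀ ∧ ∀ T : ℝ, T₀ ≤ T → ∀ H : ℝ, κ * T ≤ H → H ≤ T →
        ∀ h a : ℝ, 0 ≤ h → h ≤ C * T → a₀ ≤ a → a ≤ c₀ * Real.log T →
          2 * a * (Real.log T / (2 * Real.pi)) *
              ((3 - 2 * c) * (∫ t in T..(T + H), f t * g (t + h)) - ε * H) ≤
            ∑ᶠ γ ∈ Simple T (T + H), f γ *
              ∑ᶠ γ' ∈ {γ' : ℝ | IsSimple γ' ∧ |γ' - γ - h| ≤ 2 * Real.pi * a / Real.log T}, g γ') ∧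
    -- windows relative to universality classes
    (∀ κ C ε θ : ℝ, 0 < κ → 0 ≤ C → 0 < ε → 0 ≤ θ → θ < 1 → ∀ m k : ℕ, k < m →
      ∃ ℓ₀ : ℝ, ∀ K : Set ℂ, IsCompact K → (∀ z ∈ K, 1 / 2 < z.re ∧ z.re < 1) →
      ∀ (n : ℕ) (A : Fin n → Set (ℂ → ℂ)) (η η' : ℝ), η < η' →
      ∃ c₀ T₀ : ℝ, 0 < c₀ ∧ ∀ T : ℝ, T₀ ≤ T → ∀ H : ℝ, κ * T ≤ H → H ≤ T →
        ∀ (a : Fin n → ℝ) (b : Fin m → ℝ) (ℓ : ℝ), (∀ i, 0 ≤ a i ∧ a i ≤ C * T) →
          (∀ j, 0 ≤ b j ∧ b j ≤ C * T) → ℓ₀ ≤ ℓ → ℓ ≤ c₀ * Real.log T →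
          share m k θ * Heights T (T + H) (fun t => ∀ i, Near K (A i) η (t + a i)) - ε * H ≤
            Heights T (T + H) (fun t => (∀ i, Near K (A i) η' (t + a i)) ∧ k < full b θ ℓ T t)) ∧
    -- universality at heights with many full windows
    (∀ κ C θ : ℝ, 0 < κ → 0 ≤ C → 0 ≤ θ → θ < 1 → ∀ m k : ℕ,
      (k : ℝ) < m * ((2 - c - θ) / (1 - θ)) →
      ∀ K : Set ℂ, IsCompact K → (∀ z ∈ K, 1 / 2 < z.re ∧ z.re < 1) → IsConnected Kᶜ →
      ∀ f : ℂ → ℂ, ContinuousOn f K → DifferentiableOn ℂ f (interior K) →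
      (∀ z ∈ interior K, f z ≠ 0) → ∀ η : ℝ, 0 < η →
      ∃ p ℓ₀ c₀ T₀ : ℝ, 0 < p ∧ 0 < c₀ ∧ ∀ T : ℝ, T₀ ≤ T → ∀ H : ℝ, κ * T ≤ H → H ≤ T →
        ∀ (b : Fin m → ℝ) (ℓ : ℝ), (∀ j, 0 ≤ b j ∧ b j ≤ C * T) → ℓ₀ ≤ ℓ → ℓ ≤ c₀ * Real.log T →
          p * H ≤ Heights T (T + H) (fun t => (∀ z ∈ K, ‖riemannZeta (z + t * I) - f z‖ < η) ∧
            k < full b θ ℓ T t)) ∧
    -- the constant
    c ≤ 1.3275 :=
  ⟨fun _ _ _ _ hκ hC hε h0 h1 _ _ hk => windows hκ hC hε h0 h1 hk,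
    fun _ _ _ hκ hC hε => pairs hκ hC hε,
    fun _ _ _ _ hκ hC hε h0 h1 _ _ hk => classes hκ hC hε h0 h1 hk,
    fun _ _ _ hκ hC h0 h1 _ _ hk _ hK hKs hKc _ hf hd h00 _ hη =>
      voronin hκ hC h0 h1 hk hK hKs hKc hf hd h00 hη, c_le⟩

end Pool.Agent.Results.MP_f0209c_nt.PairsAtAllDistances
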